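import Pool.Agent.H.MP_9123af_lc.HubFinal

/-!
# Equality of represented matroids with densely joined bases is decided by few tests
-/

namespace Pool.Agent.Results.MP_9123af_lc.DenseLines

open Finset Pool.Agent.H.MP_9123af_lc

/-- First part: for every field size `q` and every `k` there is an `n` such that for every `t`
there is a constant `c` with the following property. Let two matrices over a field with `q`
elements have the same labels and a common basis `B`, and let `B₀` be a set of at most `k`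
elements of `B` such that every set of `t` elements of `B` outside `B₀` contains `n` elements
that have `n` common partners in `B` outside `B₀`, where two elements are partners if they are
joined over `B₀`. Then the vector matroids are equal if and only if the two matrices agree on
the at most `(|E| + 1) ^ (2 c)` sets of `tests B c`.

Second part: for every `q`, `k` and `m` there is a constant `c` such that the same conclusion
holds whenever every element of `B` outside `B₀` is joined over `B₀` to at least `|B| / m`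
elements of `B` outside `B₀`. -/
theorem result (q k : ℕ) :
    (∃ n : ℕ, ∀ t : ℕ, ∃ c : ℕ,
      ∀ (F : Type) [Field F] [Fintype F], Fintype.card F = q →
      ∀ (E : Type) [Fintype E] [DecidableEq E] (m₁ m₂ : ℕ) (A₁ : Matrix (Fin m₁) E F)
        (A₂ : Matrix (Fin m₂) E F) (B B₀ : Finset E), IsBasis A₁ B → IsBasis A₂ B → B₀ ⊆ B →
        B₀.card ≤ k →
        (∀ X ⊆ B \ B₀, X.card = t → ∃ P ⊆ X, ∃ W ⊆ B \ B₀, n ≤ P.card ∧ n ≤ W.card ∧
          ∀ x ∈ P, ∀ w ∈ W, Joined A₁ B₀ x w) →
        (SameMatroid A₁ A₂ ↔ ∀ S ∈ tests B c, (Indep A₁ S ↔ Indep A₂ S)) ∧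
        (tests B c).card ≤ (Fintype.card E + 1) ^ (2 * c)) ∧
    (∀ m : ℕ, ∃ c : ℕ,
      ∀ (F : Type) [Field F] [Fintype F], Fintype.card F = q →
      ∀ (E : Type) [Fintype E] [DecidableEq E] (m₁ m₂ : ℕ) (A₁ : Matrix (Fin m₁) E F)
        (A₂ : Matrix (Fin m₂) E F) (B B₀ : Finset E), IsBasis A₁ B → IsBasis A₂ B → B₀ ⊆ B →
        B₀.card ≤ k →
        (∀ x ∈ B \ B₀, B.card ≤ m * {w | w ∈ B \ B₀ ∧ Joined A₁ B₀ x w}.ncard) →
        (SameMatroid A₁ A₂ ↔ ∀ S ∈ tests B c, (Indep A₁ S ↔ Indep A₂ S)) ∧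
        (tests B c).card ≤ (Fintype.card E + 1) ^ (2 * c)) := by
  obtain ⟨n, hn⟩ := hubs_main q k
  refine ⟨⟨n, fun t => ?_⟩, fun m => ?_⟩
  · obtain ⟨c, hc⟩ := hn t
    refine ⟨c, ?_⟩
    intro F _ _ hq E _ _ m₁ m₂ A₁ A₂ B B₀ hB₁ hB₂ hB₀B hB₀ hjoin
    exact ⟨⟨fun h S _ => h S, hc F hq E m₁ m₂ A₁ A₂ B B₀ hB₁ hB₂ hB₀B hB₀ hjoin⟩, card_tests B c⟩
  · obtain ⟨c, hc⟩ := hn (2 * (n + 1) * m + 1)
    refine ⟨c + 2 * m * (2 ^ (2 * (n + 1) * m + 1) * (n + 1)), ?_⟩
    intro F _ _ hq E _ _ m₁ m₂ A₁ A₂ B B₀ hB₁ hB₂ hB₀B hB₀ hdeg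
    refine ⟨⟨fun h S _ => h S, fun hloc => ?_⟩, card_tests B _⟩
    by_cases hsmall : B.card ≤ 2 * m * (2 ^ (2 * (n + 1) * m + 1) * (n + 1))
    · apply same_of_all A₁ A₂ B hB₁ hB₂
      intro T hT
      apply hloc T
      refine Finset.mem_filter.2 ⟨Finset.mem_univ _, hT, ?_⟩
      have := Finset.card_le_card (Finset.sdiff_subset (s := T) (t := B))
      omega
    · refine hc F hq E m₁ m₂ A₁ A₂ B B₀ hB₁ hB₂ hB₀B hB₀ ?_ ?_
      · intro X hX hXc
        obtain ⟨P, hP, W, hW, h1, h2, h3⟩ := many_partners (Joined A₁ B₀) (B \ B₀) X B.card m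
          (n + 1) (by omega) (Finset.card_le_card Finset.sdiff_subset) hXc (by omega) (by omega)
          (fun x hx => hdeg x (hX hx))
        exact ⟨P, hP, W, hW, by omega, by omega, h3⟩
      · intro S hS
        apply hloc S
        have := Finset.mem_filter.1 hS
        exact Finset.mem_filter.2 ⟨this.1, this.2.1, by omega⟩

end Pool.Agent.Results.MP_9123af_lc.DenseLines
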