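import Pool.Agent.H.MP_9123af_lc.Fl.Final

/-!
# Equality of represented matroids with a common basis connected by full lines
-/

namespace Pool.Agent.Results.MP_9123af_lc.FullLines

open Finset Pool.Agent.H.MP_9123af_lc Pool.Agent.H.MP_9123af_lc.Fl

/-- Let `A₁` be a matrix over a finite field `F` with `q` elements and `B` a basis of `M[A₁]` that
is divided into at most `k` classes, each of which is connected by pairs whose line in `M[A₁]` is
full (it has `q + 1` points); all the other columns are arbitrary. Then there is a rooted spanning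
forest of full lines on `B` with at most `k` trees, and for every such forest the explicit family
`lineTests B par mid k` of at most `(|E| + 1) ^ (24 k)` sets decides equality with `M[A₁]`: for
every matrix `A₂` over `F` with the same labels such that `B` is a basis of `M[A₂]`, the matroids
`M[A₁]` and `M[A₂]` are equal if and only if the two matrices agree on the independence of the
sets of this family. -/
theorem result (k : ℕ) (F : Type) [Field F] [Fintype F] (E : Type) [Fintype E] [DecidableEq E]
    (m₁ : ℕ) (A₁ : Matrix (Fin m₁) E F) (B : Finset E) (hB : IsBasis A₁ B) (c : E → Fin k)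
    (hc : ∀ i : Fin k, ∀ X : Finset E, X ⊂ B.filter (fun b => c b = i) → X.Nonempty →
      ∃ x ∈ X, ∃ b ∈ B, c b = i ∧ b ∉ X ∧ FullLine A₁ b x) :
    (∃ par mid : E → E, LineForest A₁ B par mid ∧
      (B.filter (fun b => par b = b)).card ≤ k) ∧
    ∀ par mid : E → E, LineForest A₁ B par mid →
      (B.filter (fun b => par b = b)).card ≤ k →
      (lineTests B par mid k).card ≤ (Fintype.card E + 1) ^ (24 * k) ∧
      ∀ (m₂ : ℕ) (A₂ : Matrix (Fin m₂) E F), IsBasis A₂ B →
        (SameMatroid A₁ A₂ ↔ ∀ S ∈ lineTests B par mid k, (Indep A₁ S ↔ Indep A₂ S)) := by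
  refine ⟨exists_forest A₁ B hB k c hc, ?_⟩
  intro par mid hf hk
  refine ⟨card_lineTests B par mid k, ?_⟩
  intro m₂ A₂ hB₂
  exact ⟨fun h S _ => h S, lines_main k F E m₁ m₂ A₁ A₂ B par mid hB hB₂ hf hk⟩

end Pool.Agent.Results.MP_9123af_lc.FullLines
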