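import Pool.Agent.H.MP_9123af_lc.Defs
import Pool.Agent.H.MP_9123af_lc.Main

/-!
# Equality of represented matroids with a dense frame is decided by few tests near the frame
-/

namespace Pool.Agent.Results.MP_9123af_lc.LocalTests

open Finset Pool.Agent.H.MP_9123af_lc

/-- From bounded smallest violations to equality. -/
theorem all_tests (q a k c : ℕ)
    (hc : ∀ (F : Type) (_ : Field F) (_ : Fintype F),
    Fintype.card F = q → ∀ (ι E : Type) (_ : Fintype ι) (_ : DecidableEq ι) (_ : DecidableEq E)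
    (D₁ D₂ : E → ι → F) (emb : ι → E) (B₀ : Finset ι), Function.Injective emb →
    (∀ i, D₁ (emb i) = Pi.single i 1) → (∀ i, D₂ (emb i) = Pi.single i 1) →
    B₀.card ≤ k → (∀ e z, D₁ e z = 0 ↔ D₂ e z = 0) →
    (∀ A : Finset ι, A.card = a + 1 → Disjoint A B₀ →
      ∃ e, (∀ z, z ∉ A → z ∉ B₀ → D₁ e z = 0) ∧
        ∃ z ∈ A, ∃ z' ∈ A, z ≠ z' ∧ D₁ e z ≠ 0 ∧ D₁ e z' ≠ 0) →
    ∀ S : Finset E, S.card = Fintype.card ι → NS D₁ S → ¬ NS D₂ S → Agree D₁ D₂ emb S →
      (S \ Finset.univ.image emb).card ≤ c)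
    {F : Type} [Field F] [Fintype F] (hq : Fintype.card F = q)
    {ι E : Type} [Fintype ι] [DecidableEq ι] [DecidableEq E]
    (D₁ D₂ : E → ι → F) (emb : ι → E) (B₀ : Finset ι) (hinj : Function.Injective emb)
    (hemb₁ : ∀ i, D₁ (emb i) = Pi.single i 1) (hemb₂ : ∀ i, D₂ (emb i) = Pi.single i 1)
    (hB₀ : B₀.card ≤ k) (hsupp : ∀ e z, D₁ e z = 0 ↔ D₂ e z = 0)
    (hfree : ∀ A : Finset ι, A.card = a + 1 → Disjoint A B₀ →
      ∃ e, (∀ z, z ∉ A → z ∉ B₀ → D₁ e z = 0) ∧
        ∃ z ∈ A, ∃ z' ∈ A, z ≠ z' ∧ D₁ e z ≠ 0 ∧ D₁ e z' ≠ 0)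
    (hloc : ∀ T : Finset E, T.card = Fintype.card ι →
      (T \ Finset.univ.image emb).card ≤ c → (NS D₁ T ↔ NS D₂ T)) :
    ∀ T : Finset E, T.card = Fintype.card ι → (NS D₁ T ↔ NS D₂ T) := by
  have hfree₂ : ∀ A : Finset ι, A.card = a + 1 → Disjoint A B₀ →
      ∃ e, (∀ z, z ∉ A → z ∉ B₀ → D₂ e z = 0) ∧
        ∃ z ∈ A, ∃ z' ∈ A, z ≠ z' ∧ D₂ e z ≠ 0 ∧ D₂ e z' ≠ 0 := by
    intro A hA hAB
    obtain ⟨e, h1, z, hz, z', hz', hne, h2, h3⟩ := hfree A hA hAB
    exact ⟨e, fun x hx hx' => (hsupp _ _).1 (h1 x hx hx'), z, hz, z', hz', hne,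
      fun h => h2 ((hsupp _ _).2 h), fun h => h3 ((hsupp _ _).2 h)⟩
  have key : ∀ n, ∀ T : Finset E, (T \ Finset.univ.image emb).card = n →
      T.card = Fintype.card ι → (NS D₁ T ↔ NS D₂ T) := by
    intro n
    induction n using Nat.strong_induction_on with
    | _ n ih =>
      intro T hTn hT
      have hag : Agree D₁ D₂ emb T := fun T' hT' hlt => ih _ (by omega) T' rfl hT'
      have hag' : Agree D₂ D₁ emb T := fun T' hT' hlt => (hag T' hT' hlt).symm
      by_cases hTc : (T \ Finset.univ.image emb).card ≤ c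
      · exact hloc T hT hTc
      · by_contra hcon
        by_cases h1 : NS D₁ T
        · by_cases h2 : NS D₂ T
          · exact hcon ⟨fun _ => h2, fun _ => h1⟩
          · exact hTc (hc F inferInstance inferInstance hq ι E inferInstance inferInstance
              inferInstance D₁ D₂ emb B₀ hinj hemb₁ hemb₂ hB₀ hsupp hfree T hT h1 h2 hag)
        · by_cases h2 : NS D₂ T
          · exact hTc (hc F inferInstance inferInstance hq ι E inferInstance inferInstance
              inferInstance D₂ D₁ emb B₀ hinj hemb₂ hemb₁ hB₀ (fun e z => (hsupp e z).symm)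
              hfree₂ T hT h2 h1 hag')
          · exact hcon ⟨fun h => absurd h h1, fun h => absurd h h2⟩
  exact fun T hT => key _ T rfl hT

/-- For every field size `q` and all `a`, `k` there is a constant `c` such that for any two
matrices over a field with `q` elements whose columns carry the same labels and any common basis
`B`: if at most `k` elements `B₀` of `B` can be chosen so that no set of more than `a` elements of
`B` is free over `B₀`, then the two vector matroids are equal if and only if the two matrices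
agree on the at most `(n + 1) ^ (2 c)` sets of `tests B c`. -/
theorem result (q a k : ℕ) : ∃ c : ℕ, ∀ (F : Type) [Field F] [Fintype F], Fintype.card F = q →
    ∀ (E : Type) [Fintype E] [DecidableEq E] (m₁ m₂ : ℕ) (A₁ : Matrix (Fin m₁) E F)
      (A₂ : Matrix (Fin m₂) E F) (B B₀ : Finset E), IsBasis A₁ B → IsBasis A₂ B → B₀ ⊆ B →
      B₀.card ≤ k → (∀ X ⊆ B \ B₀, FreeOver A₁ B₀ X → X.card ≤ a) →
      (SameMatroid A₁ A₂ ↔ ∀ S ∈ tests B c, (Indep A₁ S ↔ Indep A₂ S)) ∧
      (tests B c).card ≤ (Fintype.card E + 1) ^ (2 * c) := by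
  obtain ⟨c₀, hc₀⟩ := bounded_violation q a k
  refine ⟨c₀ + 1, ?_⟩
  intro F _ _ hq E _ _ m₁ m₂ A₁ A₂ B B₀ hB₁ hB₂ hB₀B hB₀ hfree
  refine ⟨⟨fun h S _ => h S, ?_⟩, card_tests B (c₀ + 1)⟩
  intro hloc
  classical
  obtain ⟨L₁, D₁, hinj₁, hL₁, hD₁, hemb₁⟩ := exists_coord A₁ B hB₁
  obtain ⟨L₂, D₂, hinj₂, hL₂, hD₂, hemb₂⟩ := exists_coord A₂ B hB₂
  have hcardB : Fintype.card B = B.card := Fintype.card_coe B
  have himg : Finset.univ.image (fun b : B => (b : E)) = B := by
    ext e; simp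
  have hns₁ : ∀ T : Finset E, T.card = B.card → (Indep A₁ T ↔ NS D₁ T) := fun T hT =>
    (indep_iff hinj₁ hD₁ T).trans (indep_iff_ns D₁ T (by rw [hT, hcardB]))
  have hns₂ : ∀ T : Finset E, T.card = B.card → (Indep A₂ T ↔ NS D₂ T) := fun T hT =>
    (indep_iff hinj₂ hD₂ T).trans (indep_iff_ns D₂ T (by rw [hT, hcardB]))
  have hlocNS : ∀ T : Finset E, T.card = B.card → (T \ B).card ≤ c₀ + 1 →
      (NS D₁ T ↔ NS D₂ T) := by
    intro T hT hTc
    rw [← hns₁ T hT, ← hns₂ T hT]
    exact hloc T (Finset.mem_filter.2 ⟨Finset.mem_univ _, hT, hTc⟩)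
  -- equal supports
  have hsupp : ∀ e z, D₁ e z = 0 ↔ D₂ e z = 0 := by
    intro e z
    by_cases heB : e ∈ B
    · have h1 := hemb₁ ⟨e, heB⟩
      have h2 := hemb₂ ⟨e, heB⟩
      simp only at h1 h2
      rw [h1, h2]
    · have h1 := nsone F D₁ hemb₁ e z
      have h2 := nsone F D₂ hemb₂ e z
      have hzB : (z : E) ∈ B := z.2
      have hcard : (insert e (B.erase z)).card = B.card := by
        rw [Finset.card_insert_of_notMem (fun h => heB (Finset.mem_of_mem_erase h)),
          Finset.card_erase_of_mem hzB]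
        have : 0 < B.card := Finset.card_pos.2 ⟨z, hzB⟩
        omega
      have hsd : (insert e (B.erase z) \ B).card ≤ c₀ + 1 := by
        have : insert e (B.erase z) \ B ⊆ {e} := by
          intro x hx
          rw [Finset.mem_sdiff, Finset.mem_insert] at hx
          rcases hx with ⟨h3 | h3, h4⟩
          · rw [Finset.mem_singleton]; exact h3
          · exact absurd (Finset.mem_of_mem_erase h3) h4
        have := Finset.card_le_card this
        rw [Finset.card_singleton] at this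
        omega
      have h3 := hlocNS _ hcard hsd
      rw [h1, h2] at h3
      exact not_iff_not.1 h3
  -- the density hypothesis in coordinates
  set B₀' : Finset B := Finset.univ.filter (fun b : B => (b : E) ∈ B₀) with hB₀'
  have hB₀'c : B₀'.card ≤ k := by
    refine le_trans ?_ hB₀
    apply Finset.card_le_card_of_injOn (fun b : B => (b : E))
    · intro b hb
      rw [Finset.mem_coe, hB₀', Finset.mem_filter] at hb
      exact hb.2
    · intro b _ b' _ h
      exact Subtype.ext h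
  have hfree' : ∀ X : Finset B, X.card = a + 1 → Disjoint X B₀' →
      ∃ e, (∀ z, z ∉ X → z ∉ B₀' → D₁ e z = 0) ∧
        ∃ z ∈ X, ∃ z' ∈ X, z ≠ z' ∧ D₁ e z ≠ 0 ∧ D₁ e z' ≠ 0 := by
    intro X hX hdisj
    set X' : Finset E := X.image (fun b : B => (b : E)) with hX'
    have hX'c : X'.card = a + 1 := by
      rw [hX', Finset.card_image_of_injective _ Subtype.val_injective, hX]
    have hX'B : X' ⊆ B \ B₀ := by
      intro x hx
      rw [hX', Finset.mem_image] at hx
      obtain ⟨b, hb, rfl⟩ := hx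
      refine Finset.mem_sdiff.2 ⟨b.2, fun h => ?_⟩
      exact (Finset.disjoint_left.1 hdisj hb) (by rw [hB₀', Finset.mem_filter]; exact ⟨Finset.mem_univ _, h⟩)
    have hnot : ¬ FreeOver A₁ B₀ X' := fun h => by
      have := hfree X' hX'B h
      omega
    unfold FreeOver at hnot
    push Not at hnot
    obtain ⟨e, he, hne⟩ := hnot
    have hsubB : B₀ ∪ X' ⊆ B := Finset.union_subset hB₀B (hX'B.trans Finset.sdiff_subset)
    rw [inClosure_iff hinj₁ hL₁ hD₁ _ hsubB] at he
    have hz : ∀ z : B, z ∉ X → z ∉ B₀' → D₁ e z = 0 := by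
      intro z hzX hzB
      apply he z
      rw [Finset.mem_union]
      rintro (h | h)
      · exact hzB (by rw [hB₀', Finset.mem_filter]; exact ⟨Finset.mem_univ _, h⟩)
      · rw [hX', Finset.mem_image] at h
        obtain ⟨b, hb, hbz⟩ := h
        exact hzX (by rwa [← Subtype.ext hbz])
    -- for every element of `X` there is another one in the support
    have hother : ∀ b ∈ X, ∃ z ∈ X, z ≠ b ∧ D₁ e z ≠ 0 := by
      intro b hb
      have hbX' : (b : E) ∈ X' := Finset.mem_image.2 ⟨b, hb, rfl⟩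
      have h1 := hne b hbX'
      have hsub2 : insert (b : E) B₀ ⊆ B := Finset.insert_subset b.2 hB₀B
      rw [inClosure_iff hinj₁ hL₁ hD₁ _ hsub2] at h1
      push Not at h1
      obtain ⟨z, hz1, hz2⟩ := h1
      rw [Finset.mem_insert] at hz1
      push Not at hz1
      refine ⟨z, ?_, fun h => hz1.1 (by rw [h]), hz2⟩
      by_contra hzX
      apply hz2
      apply hz z hzX
      rw [hB₀', Finset.mem_filter]
      rintro ⟨_, h⟩
      exact hz1.2 h
    have hXne : X.Nonempty := by
      rw [← Finset.card_pos, hX]; omega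
    obtain ⟨b, hb⟩ := hXne
    obtain ⟨z, hzX, _, hz0⟩ := hother b hb
    obtain ⟨z', hzX', hzz', hz0'⟩ := hother z hzX
    exact ⟨e, hz, z, hzX, z', hzX', Ne.symm hzz', hz0, hz0'⟩
  have hall := all_tests q a k c₀ hc₀ hq D₁ D₂ (fun b : B => (b : E)) B₀'
    Subtype.val_injective hemb₁ hemb₂ hB₀'c hsupp hfree' (by
      intro T hT hTc
      rw [himg] at hTc
      exact hlocNS T (by rw [hT, hcardB]) (by omega))
  intro S
  constructor
  · intro hS
    obtain ⟨T, hST, hT, hTi⟩ := extend_indep D₁ (fun b : B => (b : E)) hemb₁ S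
      ((indep_iff hinj₁ hD₁ S).1 hS)
    have h1 : NS D₁ T := (indep_iff_ns D₁ T hT).1 hTi
    have h2 : LinearIndepOn F D₂ (T : Set E) := (indep_iff_ns D₂ T hT).2 ((hall T hT).1 h1)
    exact (indep_iff hinj₂ hD₂ S).2 (h2.mono (by exact_mod_cast hST))
  · intro hS
    obtain ⟨T, hST, hT, hTi⟩ := extend_indep D₂ (fun b : B => (b : E)) hemb₂ S
      ((indep_iff hinj₂ hD₂ S).1 hS)
    have h1 : NS D₂ T := (indep_iff_ns D₂ T hT).1 hTi
    have h2 : LinearIndepOn F D₁ (T : Set E) := (indep_iff_ns D₁ T hT).2 ((hall T hT).2 h1)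
    exact (indep_iff hinj₁ hD₁ S).2 (h2.mono (by exact_mod_cast hST))

end Pool.Agent.Results.MP_9123af_lc.LocalTests
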