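import Pool.Agent.H.MP_9123af_lc.Defs
import Pool.Agent.H.MP_9123af_lc.Whirl

/-!
# Equality of represented matroids without large whirls is decided by few tests
-/

namespace Pool.Agent.Results.MP_9123af_lc.WhirlFree

open Finset Pool.Agent.H.MP_9123af_lc

/-- In the contraction of `C` in the vector matroid of `A` the labels `b 0, ..., b N` are
distinct and independent, the labels `y 0, ..., y N` are distinct, and `y i` lies on the line
through `b i` and `b (i + 1)` (indices modulo `N + 1`) and is parallel to neither of them. -/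
structure IsRing {R E F : Type} [Field F] [DecidableEq E] {N : ℕ} (A : Matrix R E F)
    (C : Finset E) (b y : Fin (N + 1) → E) : Prop where
  indep : Indep A (C ∪ Finset.univ.image b)
  card_b : (C ∪ Finset.univ.image b).card = C.card + (N + 1)
  card_y : (C ∪ Finset.univ.image y).card = C.card + (N + 1)
  mem : ∀ i, InClosure A (insert (b i) (insert (b (i + 1)) C)) (y i)
  left : ∀ i, ¬ InClosure A (insert (b i) C) (y i)
  right : ∀ i, ¬ InClosure A (insert (b (i + 1)) C) (y i)

/-- The elements `b i`, `y i` form a whirl of rank `N + 1` in the contraction of `C`. -/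
def IsWhirl {R E F : Type} [Field F] [DecidableEq E] {N : ℕ} (A : Matrix R E F)
    (C : Finset E) (b y : Fin (N + 1) → E) : Prop :=
  IsRing A C b y ∧ Indep A (C ∪ Finset.univ.image y)

/-- The elements `b i`, `y i` form a wheel of rank `N + 1` in the contraction of `C`. -/
def IsWheel {R E F : Type} [Field F] [DecidableEq E] {N : ℕ} (A : Matrix R E F)
    (C : Finset E) (b y : Fin (N + 1) → E) : Prop :=
  IsRing A C b y ∧ ¬ Indep A (C ∪ Finset.univ.image y)

theorem fin_succ_iff {N : ℕ} (i j : Fin (N + 1)) :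
    j = i + 1 ↔ ((j : ℕ) = (i : ℕ) + 1 ∨ ((i : ℕ) = N ∧ (j : ℕ) = 0)) := by
  have h1 := Fin.val_add_one i
  have hi := i.2
  have hj := j.2
  constructor
  · intro h
    have h2 : (j : ℕ) = ((i + 1 : Fin (N + 1)) : ℕ) := by rw [h]
    rw [h1] at h2
    split_ifs at h2 with h3
    · right
      refine ⟨?_, h2⟩
      rw [h3]; simp
    · left; exact h2
  · intro h
    apply Fin.ext
    rw [h1]
    split_ifs with h3
    · have h4 : (i : ℕ) = N := by rw [h3]; simp
      omega
    · have h4 : (i : ℕ) ≠ N := by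
        intro h5; apply h3; apply Fin.ext; simpa using h5
      omega

/-- The ring structure from exchange tests. -/
theorem ring_of_tests {R E F : Type} [Field F] [DecidableEq E] {A : Matrix R E F}
    {B : Finset E} {L : (B → F) →ₗ[F] (R → F)} {D : E → B → F} (hinj : Function.Injective L)
    (hD : ∀ e, L (D e) = col A e) {N : ℕ} (hN : 1 ≤ N) (C : Finset E)
    (b y : Fin (N + 1) → E)
    (hcb : (C ∪ Finset.univ.image b).card = C.card + (N + 1))
    (hcy : (C ∪ Finset.univ.image y).card = C.card + (N + 1))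
    (hcard : (C ∪ Finset.univ.image b).card = Fintype.card B)
    (hbC : ∀ i, b i ∉ C) (hb : Function.Injective b)
    (hT : NS D (C ∪ Finset.univ.image b))
    (hex : ∀ i j, (NS D (insert (y i) ((C ∪ Finset.univ.image b).erase (b j))) ↔
      (j = i ∨ j = i + 1))) : IsRing A C b y := by
  classical
  have hne : ∀ i : Fin (N + 1), i + 1 ≠ i := by
    intro i h
    rcases (fin_succ_iff i i).1 h.symm with h1 | h1
    · omega
    · omega
  have hmemb : ∀ i, b i ∈ C ∪ Finset.univ.image b := fun i =>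
    Finset.mem_union_right _ (Finset.mem_image.2 ⟨i, Finset.mem_univ _, rfl⟩)
  have hCsub : C ⊆ C ∪ Finset.univ.image b := Finset.subset_union_left
  refine ⟨?_, hcb, hcy, ?_, ?_, ?_⟩
  · exact (indep_iff hinj hD _).2 ((indep_iff_ns D _ hcard).2 hT)
  · intro i
    rw [inClosure_iff_dual hinj hD, kill_iff_exchange D _ hcard hT]
    · intro t ht htX
      rw [Finset.mem_union, Finset.mem_image] at ht
      rcases ht with ht | ⟨j, _, rfl⟩
      · exact absurd (Finset.mem_insert_of_mem (Finset.mem_insert_of_mem ht)) htX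
      · rw [hex]
        rintro (h | h)
        · subst h; exact htX (Finset.mem_insert_self _ _)
        · subst h; exact htX (Finset.mem_insert_of_mem (Finset.mem_insert_self _ _))
    · exact Finset.insert_subset (hmemb i) (Finset.insert_subset (hmemb (i + 1)) hCsub)
  · intro i h
    rw [inClosure_iff_dual hinj hD, kill_iff_exchange D _ hcard hT] at h
    · refine h (b (i + 1)) (hmemb _) ?_ ((hex i (i + 1)).2 (Or.inr rfl))
      rw [Finset.mem_insert]
      rintro (h1 | h1)
      · exact hne i (hb h1)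
      · exact hbC _ h1
    · exact Finset.insert_subset (hmemb i) hCsub
  · intro i h
    rw [inClosure_iff_dual hinj hD, kill_iff_exchange D _ hcard hT] at h
    · refine h (b i) (hmemb _) ?_ ((hex i i).2 (Or.inl rfl))
      rw [Finset.mem_insert]
      rintro (h1 | h1)
      · exact hne i (hb h1).symm
      · exact hbC _ h1
    · exact Finset.insert_subset (hmemb (i + 1)) hCsub

/-- One direction: a large smallest violation that is independent for the first matrix. -/
theorem whirl_wheel (q N M₂ : ℕ) (hN : 1 ≤ N) {F : Type} [Field F] [Fintype F]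
    (hq : Fintype.card F = q) (hM₂ : RamseyAt (K2 F) 2 (q + 2 * N + 10) M₂)
    {E : Type} [DecidableEq E] {R₁ R₂ : Type} {A₁ : Matrix R₁ E F} {A₂ : Matrix R₂ E F}
    {B : Finset E} {L₁ : (B → F) →ₗ[F] (R₁ → F)} {L₂ : (B → F) →ₗ[F] (R₂ → F)}
    {D₁ D₂ : E → B → F} (hinj₁ : Function.Injective L₁) (hinj₂ : Function.Injective L₂)
    (hD₁ : ∀ e, L₁ (D₁ e) = col A₁ e) (hD₂ : ∀ e, L₂ (D₂ e) = col A₂ e)
    (hemb₁ : ∀ b : B, D₁ b = Pi.single b 1) (hemb₂ : ∀ b : B, D₂ b = Pi.single b 1)
    (S : Finset E) (hS : S.card = Fintype.card B)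
    (hmin : Agree D₁ D₂ (fun b : B => (b : E)) S) (hN₁ : NS D₁ S) (hN₂ : ¬ NS D₂ S)
    (hbig : q ^ (M₂ + 1) < (S \ B).card) :
    ∃ (C : Finset E) (b y : Fin (N + 1) → E), (∀ i, b i ∈ B) ∧ IsWhirl A₁ C b y ∧
      IsWheel A₂ C b y := by
  classical
  have himg : Finset.univ.image (fun b : B => (b : E)) = B := by
    ext e; simp
  have hbig' : q ^ (M₂ + 1) < (S \ Finset.univ.image (fun b : B => (b : E))).card := by
    rw [himg]; exact hbig
  obtain ⟨R, V, hR, hRinj, hV, hVinj, hT₀, hex⟩ := ring_of_violation q N M₂ hN hq hM₂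
    (emb := fun b : B => (b : E)) Subtype.val_injective hemb₁ hemb₂ hS hN₁ hN₂ hmin hbig'
  have hRB : ∀ i ≤ N, R i ∉ B := by
    intro i hi h
    exact (hR i hi).2 ⟨R i, h⟩ rfl
  set C : Finset E := S \ (range (N + 1)).image R with hC
  set b : Fin (N + 1) → E := fun j => (V j : E) with hb
  set y : Fin (N + 1) → E := fun i => R i with hy
  have himb : Finset.univ.image b = (range (N + 1)).image (fun j => ((V j : B) : E)) := by
    ext e
    rw [Finset.mem_image, Finset.mem_image]
    constructor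
    · rintro ⟨j, _, rfl⟩; exact ⟨j, Finset.mem_range.2 j.2, rfl⟩
    · rintro ⟨j, hj, rfl⟩; exact ⟨⟨j, Finset.mem_range.1 hj⟩, Finset.mem_univ _, rfl⟩
  have himy : Finset.univ.image y = (range (N + 1)).image R := by
    ext e
    rw [Finset.mem_image, Finset.mem_image]
    constructor
    · rintro ⟨j, _, rfl⟩; exact ⟨j, Finset.mem_range.2 j.2, rfl⟩
    · rintro ⟨j, hj, rfl⟩; exact ⟨⟨j, Finset.mem_range.1 hj⟩, Finset.mem_univ _, rfl⟩
  have hle : ∀ i : Fin (N + 1), (i : ℕ) ≤ N := fun i => by have := i.2; omega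
  have hbinj : Function.Injective b := by
    intro i j hij
    apply Fin.ext
    exact hVinj i (hle i) j (hle j) (Subtype.ext hij)
  have hyinj : Function.Injective y := by
    intro i j hij
    apply Fin.ext
    exact hRinj i (hle i) j (hle j) hij
  have hbS : ∀ i, b i ∉ S := fun i => hV i (hle i)
  have hbC : ∀ i, b i ∉ C := fun i h => hbS i (Finset.mem_sdiff.1 h).1
  have hyS : ∀ i, y i ∈ S := fun i => (hR i (hle i)).1
  have hyB : ∀ i, y i ∉ B := fun i => hRB i (hle i)
  have hbB : ∀ i, b i ∈ B := fun i => (V i).2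
  have hyC : ∀ i, y i ∉ C := by
    intro i h
    exact (Finset.mem_sdiff.1 h).2 (Finset.mem_image.2 ⟨i, Finset.mem_range.2 i.2, rfl⟩)
  have hCy : C ∪ Finset.univ.image y = S := by
    rw [himy, hC]
    apply Finset.sdiff_union_of_subset
    intro z hz
    rw [Finset.mem_image] at hz
    obtain ⟨i, hi, rfl⟩ := hz
    exact (hR i (by rw [Finset.mem_range] at hi; omega)).1
  have hcb : (C ∪ Finset.univ.image b).card = C.card + (N + 1) := by
    rw [Finset.card_union_of_disjoint, Finset.card_image_of_injective _ hbinj, Finset.card_univ,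
      Fintype.card_fin]
    rw [Finset.disjoint_left]
    intro z hz hz'
    rw [Finset.mem_image] at hz'
    obtain ⟨i, _, rfl⟩ := hz'
    exact hbC i hz
  have hcy : (C ∪ Finset.univ.image y).card = C.card + (N + 1) := by
    rw [Finset.card_union_of_disjoint, Finset.card_image_of_injective _ hyinj, Finset.card_univ,
      Fintype.card_fin]
    rw [Finset.disjoint_left]
    intro z hz hz'
    rw [Finset.mem_image] at hz'
    obtain ⟨i, _, rfl⟩ := hz'
    exact hyC i hz
  have hcard : (C ∪ Finset.univ.image b).card = Fintype.card B := by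
    rw [hcb, ← hcy, hCy, hS]
  have hT₁ : NS D₁ (C ∪ Finset.univ.image b) := by rw [himb]; exact hT₀
  -- the distances to `B`
  have hlt : ∀ (T : Finset E) (i : Fin (N + 1)), y i ∉ T → (∀ z ∈ T, z ∉ B → z ∈ S) →
      (T \ B).card < (S \ B).card := by
    intro T i hiT hTS
    apply Finset.card_lt_card
    rw [Finset.ssubset_iff_of_subset]
    · exact ⟨y i, Finset.mem_sdiff.2 ⟨hyS i, hyB i⟩, fun h => hiT (Finset.mem_sdiff.1 h).1⟩
    · intro z hz
      rw [Finset.mem_sdiff] at hz ⊢
      exact ⟨hTS z hz.1 hz.2, hz.2⟩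
  have hag : ∀ (T : Finset E) (i : Fin (N + 1)), T.card = Fintype.card B → y i ∉ T →
      (∀ z ∈ T, z ∉ B → z ∈ S) → (NS D₁ T ↔ NS D₂ T) := by
    intro T i hTc hiT hTS
    apply hmin T hTc
    rw [himg]
    exact hlt T i hiT hTS
  have hyT : ∀ i, y i ∉ C ∪ Finset.univ.image b := by
    intro i h
    rw [Finset.mem_union, Finset.mem_image] at h
    rcases h with h | ⟨j, _, h⟩
    · exact hyC i h
    · exact hyB i (h ▸ hbB j)
  have hTS₀ : ∀ z ∈ C ∪ Finset.univ.image b, z ∉ B → z ∈ S := by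
    intro z hz hzB
    rw [Finset.mem_union, Finset.mem_image] at hz
    rcases hz with h | ⟨j, _, rfl⟩
    · exact (Finset.mem_sdiff.1 h).1
    · exact absurd (hbB j) hzB
  have hT₂ : NS D₂ (C ∪ Finset.univ.image b) := (hag _ 0 hcard (hyT 0) hTS₀).1 hT₁
  have hmemb : ∀ i, b i ∈ C ∪ Finset.univ.image b := fun i =>
    Finset.mem_union_right _ (Finset.mem_image.2 ⟨i, Finset.mem_univ _, rfl⟩)
  have hex₁ : ∀ i j, (NS D₁ (insert (y i) ((C ∪ Finset.univ.image b).erase (b j))) ↔
      (j = i ∨ j = i + 1)) := by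
    intro i j
    have h1 := hex i (hle i) j (hle j)
    rw [himb]
    refine h1.trans ?_
    rw [fin_succ_iff, Fin.ext_iff]
  have hex₂ : ∀ i j, (NS D₂ (insert (y i) ((C ∪ Finset.univ.image b).erase (b j))) ↔
      (j = i ∨ j = i + 1)) := by
    intro i j
    rw [← hex₁ i j]
    symm
    obtain ⟨i', hi'⟩ : ∃ i' : Fin (N + 1), i' ≠ i := by
      haveI : Nontrivial (Fin (N + 1)) := Fin.nontrivial_iff_two_le.2 (by omega)
      exact exists_ne i
    apply hag _ i'
    · rw [Finset.card_insert_of_notMem (fun h => hyT i (Finset.mem_of_mem_erase h)),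
        Finset.card_erase_of_mem (hmemb j), hcard]
      have : 0 < Fintype.card B := Fintype.card_pos_iff.2 ⟨⟨b i, hbB i⟩⟩
      omega
    · rw [Finset.mem_insert]
      rintro (h | h)
      · exact hi' (hyinj h)
      · exact hyT i' (Finset.mem_of_mem_erase h)
    · intro z hz hzB
      rw [Finset.mem_insert] at hz
      rcases hz with rfl | hz
      · exact hyS i
      · exact hTS₀ z (Finset.mem_of_mem_erase hz) hzB
  refine ⟨C, b, y, hbB, ⟨ring_of_tests hinj₁ hD₁ hN C b y hcb hcy hcard hbC hbinj hT₁ hex₁, ?_⟩,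
    ⟨ring_of_tests hinj₂ hD₂ hN C b y hcb hcy hcard hbC hbinj hT₂ hex₂, ?_⟩⟩
  · rw [hCy]
    exact (indep_iff hinj₁ hD₁ _).2 ((indep_iff_ns D₁ _ hS).2 hN₁)
  · rw [hCy]
    intro h
    exact hN₂ ((indep_iff_ns D₂ _ hS).1 ((indep_iff hinj₂ hD₂ _).1 h))

/-- For every field size `q` and every `N ≥ 1` there is a constant `c` such that for any two
matrices over a field with `q` elements with the same column labels and ANY common basis `B`:
if there is no place where one matroid has a whirl of rank `N + 1` and the other the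
corresponding wheel, then the two vector matroids are equal if and only if the matrices agree on
the at most `(n + 1) ^ (2 c)` sets of `tests B c`. -/
theorem result (q N : ℕ) (hN : 1 ≤ N) : ∃ c : ℕ, ∀ (F : Type) [Field F] [Fintype F],
    Fintype.card F = q → ∀ (E : Type) [Fintype E] [DecidableEq E] (m₁ m₂ : ℕ)
      (A₁ : Matrix (Fin m₁) E F) (A₂ : Matrix (Fin m₂) E F) (B : Finset E),
      IsBasis A₁ B → IsBasis A₂ B →
      (∀ (C : Finset E) (b y : Fin (N + 1) → E), (∀ i, b i ∈ B) →
        ¬ (IsWhirl A₁ C b y ∧ IsWheel A₂ C b y) ∧ ¬ (IsWheel A₁ C b y ∧ IsWhirl A₂ C b y)) →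
      (SameMatroid A₁ A₂ ↔ ∀ S ∈ tests B c, (Indep A₁ S ↔ Indep A₂ S)) ∧
      (tests B c).card ≤ (Fintype.card E + 1) ^ (2 * c) := by
  obtain ⟨M₂, hM₂⟩ := ramsey (q * (q * (q * (q * (q * q))))) 2 (q + 2 * N + 10)
  refine ⟨q ^ (M₂ + 1), ?_⟩
  intro F _ _ hq E _ _ m₁ m₂ A₁ A₂ B hB₁ hB₂ hno
  refine ⟨⟨fun h S _ => h S, ?_⟩, card_tests B _⟩
  intro hloc
  classical
  have hM₂' : RamseyAt (K2 F) 2 (q + 2 * N + 10) M₂ := hM₂ (K2 F) inferInstance (by
    simp [K2, Fintype.card_prod, hq])
  obtain ⟨L₁, D₁, hinj₁, hL₁, hD₁, hemb₁⟩ := exists_coord A₁ B hB₁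
  obtain ⟨L₂, D₂, hinj₂, hL₂, hD₂, hemb₂⟩ := exists_coord A₂ B hB₂
  have hcardB : Fintype.card B = B.card := Fintype.card_coe B
  have himg : Finset.univ.image (fun b : B => (b : E)) = B := by
    ext e; simp
  have hall : ∀ T : Finset E, T.card = Fintype.card B → (NS D₁ T ↔ NS D₂ T) := by
    by_contra hcon
    obtain ⟨S, hS, hag, hdis⟩ := exists_min_violation D₁ D₂ (fun b : B => (b : E)) hcon
    have hbig : q ^ (M₂ + 1) < (S \ B).card := by
      by_contra hle
      push Not at hle
      apply hdis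
      have h1 := hloc S (Finset.mem_filter.2 ⟨Finset.mem_univ _, by rw [hS, hcardB], hle⟩)
      rw [indep_iff hinj₁ hD₁, indep_iff hinj₂ hD₂, indep_iff_ns D₁ S hS,
        indep_iff_ns D₂ S hS] at h1
      exact h1
    by_cases h1 : NS D₁ S
    · have h2 : ¬ NS D₂ S := fun h2 => hdis ⟨fun _ => h2, fun _ => h1⟩
      obtain ⟨C, b, y, hb, hw1, hw2⟩ := whirl_wheel q N M₂ hN hq hM₂' hinj₁ hinj₂ hD₁ hD₂ hemb₁
        hemb₂ S hS hag h1 h2 hbig
      exact (hno C b y hb).1 ⟨hw1, hw2⟩
    · have h2 : NS D₂ S := by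
        by_contra h2; exact hdis ⟨fun h => absurd h h1, fun h => absurd h h2⟩
      have hag' : Agree D₂ D₁ (fun b : B => (b : E)) S :=
        fun T' hT' hlt => (hag T' hT' hlt).symm
      obtain ⟨C, b, y, hb, hw1, hw2⟩ := whirl_wheel q N M₂ hN hq hM₂' hinj₂ hinj₁ hD₂ hD₁ hemb₂
        hemb₁ S hS hag' h2 h1 hbig
      exact (hno C b y hb).2 ⟨hw2, hw1⟩
  intro S
  constructor
  · intro hS
    obtain ⟨T, hST, hT, hTi⟩ := extend_indep D₁ (fun b : B => (b : E)) hemb₁ S
      ((indep_iff hinj₁ hD₁ S).1 hS)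
    have h1 : NS D₁ T := (indep_iff_ns D₁ T hT).1 hTi
    have h2 : LinearIndepOn F D₂ (T : Set E) := (indep_iff_ns D₂ T hT).2 ((hall T hT).1 h1)
    exact (indep_iff hinj₂ hD₂ S).2 (h2.mono (by exact_mod_cast hST))
  · intro hS
    obtain ⟨T, hST, hT, hTi⟩ := extend_indep D₂ (fun b : B => (b : E)) hemb₂ S
      ((indep_iff hinj₂ hD₂ S).1 hS)
    have h1 : NS D₂ T := (indep_iff_ns D₂ T hT).1 hTi
    have h2 : LinearIndepOn F D₁ (T : Set E) := (indep_iff_ns D₁ T hT).2 ((hall T hT).2 h1)
    exact (indep_iff hinj₁ hD₁ S).2 (h2.mono (by exact_mod_cast hST))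

end Pool.Agent.Results.MP_9123af_lc.WhirlFree
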